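import Pool.Agent.T9h87.Zono6

/-!
# Non-regular minimisers of the circumradius among rhombic dodecahedra, for all odd `d ≥ 3`

Let `p₀, …, p_d` be the vertices of a regular simplex with centre `0` and let `q` be a point near `0`.
The zonotope spanned by the vectors `pᵢ - q` has the same volume as the one spanned by the `pᵢ` as
long as `q` is in the simplex. For odd `d` the largest signed sums `∑ εᵢ pᵢ` are the balanced ones,
and they do not change when all `pᵢ` are translated; so the circumradius does not change either.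
-/

set_option autoImplicit false

open MeasureTheory Set
open scoped BigOperators Pointwise RealInnerProductSpace

noncomputable section

namespace Pool.Agent.Results.MP_de3f1f_gt.OddDimensions

/-- Euclidean space `ℝ^d` -/
abbrev E (d : ℕ) : Type := EuclideanSpace ℝ (Fin d)

/-- `Z` is a rhombic dodecahedron in `ℝ^d`: a `d`-dimensional set (a set with interior points) that
is the Minkowski sum of `d + 1` segments `[o, x i]`. -/
def IsRhombicDodecahedron {d : ℕ} (Z : Set (E d)) : Prop :=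
  (interior Z).Nonempty ∧ ∃ x : Fin (d + 1) → E d, Z = ∑ i, segment ℝ 0 (x i)

/-- The points `p 0, …, p d` are the vertices of a regular simplex centred at the origin. -/
def IsRegularSimplex {d : ℕ} (p : Fin (d + 1) → E d) : Prop :=
  (∃ a : ℝ, 0 < a ∧ ∀ i j, i ≠ j → dist (p i) (p j) = a) ∧ ∑ i, p i = 0

/-- `Z` is regular: a translate of the Minkowski sum of the segments `[o, p i]` where the `p i` are
the vertices of a regular simplex centred at the origin. -/
def IsRegular {d : ℕ} (Z : Set (E d)) : Prop :=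
  ∃ (p : Fin (d + 1) → E d) (v : E d), IsRegularSimplex p ∧
    Z = (fun z => v + z) '' ∑ i, segment ℝ 0 (p i)

/-- The circumradius of `Z`: the radius of the smallest closed ball containing `Z`. -/
def circumradius {d : ℕ} (Z : Set (E d)) : ℝ :=
  sInf {r : ℝ | 0 ≤ r ∧ ∃ c : E d, Z ⊆ Metric.closedBall c r}

open Pool.Agent.T9h87.Zono (fam bary bary_pos bary_sum bary_rel volume_fam circumradius_fam reg
  inner_reg sum_reg A det_A_reg det_A_smul det_A_sub ker_of_det_ne_zero widths_eq exists_norm_eq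
  norm_sq_signed norm_sq_comb)

variable {d : ℕ}

theorem norm_sq_of_simplex (p : Fin (d + 1) → E d) {a : ℝ}
    (h : ∀ i j, i ≠ j → dist (p i) (p j) = a) (h0 : ∑ i, p i = 0) (i : Fin (d + 1)) :
    2 * ((d : ℝ) + 1) * ‖p i‖ ^ 2 = d * a ^ 2 := by
  have h1 : ∀ i, (d + 1) * ‖p i‖ ^ 2 + ∑ j, ‖p j‖ ^ 2 = d * a ^ 2 := by
    intro i
    have e1 : ∑ j, ‖p i - p j‖ ^ 2 = (d + 1) * ‖p i‖ ^ 2 + ∑ j, ‖p j‖ ^ 2 := by
      have : ∀ j, ‖p i - p j‖ ^ 2 = ‖p i‖ ^ 2 - 2 * ⟪p i, p j⟫ + ‖p j‖ ^ 2 := fun j =>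
        norm_sub_sq_real _ _
      rw [Finset.sum_congr rfl fun j _ => this j, Finset.sum_add_distrib, Finset.sum_sub_distrib,
        ← Finset.mul_sum, ← inner_sum, h0, inner_zero_right]
      simp
    rw [← e1]
    rw [Fin.sum_univ_succAbove _ i, sub_self, norm_zero]
    have : ∀ k : Fin d, ‖p i - p (i.succAbove k)‖ ^ 2 = a ^ 2 := fun k => by
      rw [← dist_eq_norm, h i _ (Fin.succAbove_ne i k).symm]
    rw [Finset.sum_congr rfl fun k _ => this k]
    simp
  have h2 : ∑ i, ((d + 1) * ‖p i‖ ^ 2 + ∑ j, ‖p j‖ ^ 2) = ∑ _i : Fin (d + 1), d * a ^ 2 :=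
    Finset.sum_congr rfl fun i _ => h1 i
  rw [Finset.sum_add_distrib, ← Finset.mul_sum] at h2
  simp only [Finset.sum_const, Finset.card_univ, Fintype.card_fin, nsmul_eq_mul] at h2
  push_cast at h2
  have hd : (0 : ℝ) < d + 1 := by positivity
  have h3 : 2 * ∑ j, ‖p j‖ ^ 2 = d * a ^ 2 := by
    have : ((d : ℝ) + 1) * (2 * ∑ j, ‖p j‖ ^ 2) = (d + 1) * (d * a ^ 2) := by linarith
    exact mul_left_cancel₀ hd.ne' this
  have := h1 i
  linarith

theorem inner_sq_of_simplex (p : Fin (d + 1) → E d) {a : ℝ}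
    (h : ∀ i j, i ≠ j → dist (p i) (p j) = a) (h0 : ∑ i, p i = 0) {i j : Fin (d + 1)}
    (hij : i ≠ j) : 2 * ((d : ℝ) + 1) * ⟪p i, p j⟫ = - a ^ 2 := by
  have h1 : ‖p i - p j‖ ^ 2 = ‖p i‖ ^ 2 - 2 * ⟪p i, p j⟫ + ‖p j‖ ^ 2 := norm_sub_sq_real _ _
  rw [← dist_eq_norm, h i j hij] at h1
  have h2 := norm_sq_of_simplex p h h0 i
  have h3 := norm_sq_of_simplex p h h0 j
  linear_combination ((d : ℝ) + 1) * h1 + (1 / 2) * h2 + (1 / 2) * h3

/-- vectors of a regular simplex are pairwise not parallel -/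
theorem simplex_span (hd : 2 ≤ d) (p : Fin (d + 1) → E d) {a : ℝ} (ha : 0 < a)
    (h : ∀ i j, i ≠ j → dist (p i) (p j) = a) (h0 : ∑ i, p i = 0) (w : E d) {j k : Fin (d + 1)}
    (hj : p j ∈ Submodule.span ℝ {w}) (hk : p k ∈ Submodule.span ℝ {w}) : j = k := by
  by_contra hjk
  obtain ⟨b, hb⟩ := Submodule.mem_span_singleton.1 hj
  obtain ⟨c, hc⟩ := Submodule.mem_span_singleton.1 hk
  have h1 := inner_sq_of_simplex p h h0 hjk
  have h2 := norm_sq_of_simplex p h h0 j
  have h3 := norm_sq_of_simplex p h h0 k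
  have e : ⟪p j, p k⟫ ^ 2 = ‖p j‖ ^ 2 * ‖p k‖ ^ 2 := by
    rw [← hb, ← hc, inner_smul_left, inner_smul_right, conj_trivial, real_inner_self_eq_norm_sq,
      norm_smul, norm_smul, Real.norm_eq_abs, Real.norm_eq_abs, mul_pow |b|, mul_pow |c|, sq_abs,
      sq_abs]
    ring
  have e2 : (a ^ 2) ^ 2 = (d * a ^ 2) ^ 2 := by
    have : (2 * ((d : ℝ) + 1) * ⟪p j, p k⟫) ^ 2 =
        (2 * ((d : ℝ) + 1) * ‖p j‖ ^ 2) * (2 * ((d : ℝ) + 1) * ‖p k‖ ^ 2) := by
      rw [mul_pow, e]; ring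
    rw [h1, h2, h3] at this
    linear_combination this
  have e3 : a ^ 2 = d * a ^ 2 := by
    have := (sq_eq_sq₀ (by positivity) (by positivity)).1 e2
    exact this
  have hdR : (2 : ℝ) ≤ d := by exact_mod_cast hd
  have : 0 < a ^ 2 := by positivity
  nlinarith

theorem det_A_fam (hd : 0 < d) {τ s : ℝ} (hs : 0 < s) : (A (fam d τ s)).det ≠ 0 := by
  have : fam d τ s = fun i => s • (fun i => reg d i - τ • reg d 0) i := rfl
  rw [this, det_A_smul, det_A_sub]
  exact mul_ne_zero (pow_ne_zero _ hs.ne') (det_A_reg hd)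

theorem ker_fam (hd : 0 < d) {τ s : ℝ} (h0 : 0 ≤ τ) (h1 : τ < 1) (hs : 0 < s)
    (t : Fin (d + 1) → ℝ) (ht : ∑ i, t i • fam d τ s i = 0) {l : Fin (d + 1)} (hl : t l = 0) :
    ∀ i, t i = 0 := by
  obtain ⟨c, hc⟩ := ker_of_det_ne_zero (fam d τ s) (bary d τ) (bary_sum τ) (bary_rel hd τ s)
    (det_A_fam hd hs) t ht
  have h2 := hc l
  rw [hl] at h2
  have h3 : c = 0 := by
    rcases mul_eq_zero.1 h2.symm with h | h
    · exact h
    · exact absurd h (bary_pos h0 h1 l).ne'
  intro i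
  rw [hc i, h3, zero_mul]

theorem fam_ne_zero (hd : 0 < d) {τ s : ℝ} (h0 : 0 ≤ τ) (h1 : τ < 1) (hs : 0 < s)
    (i : Fin (d + 1)) : fam d τ s i ≠ 0 := by
  intro h
  obtain ⟨l, hl⟩ : ∃ l : Fin (d + 1), l ≠ i := by
    have : Nontrivial (Fin (d + 1)) := Fin.nontrivial_iff_two_le.2 (by omega)
    exact exists_ne i
  have := ker_fam hd h0 h1 hs (Pi.single i 1) (by simp [Pi.single_apply, h])
    (l := l) (by simp [hl]) i
  simp at this

theorem fam_span (hd : 2 ≤ d) {τ s : ℝ} (h0 : 0 ≤ τ) (h1 : τ < 1) (hs : 0 < s)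
    {i k : Fin (d + 1)} (hk : k ≠ i) : fam d τ s k ∉ Submodule.span ℝ {fam d τ s i} := by
  intro h
  obtain ⟨c, hc⟩ := Submodule.mem_span_singleton.1 h
  obtain ⟨l, hl⟩ : ∃ l : Fin (d + 1), l ≠ i ∧ l ≠ k := by
    have h2 : 2 < Fintype.card (Fin (d + 1)) := by simp; omega
    obtain ⟨l, hl⟩ : ∃ l : Fin (d + 1), l ∉ ({i, k} : Finset (Fin (d + 1))) := by
      by_contra hcon
      push Not at hcon
      have : Finset.univ ⊆ ({i, k} : Finset (Fin (d + 1))) := fun l _ => hcon l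
      have := Finset.card_le_card this
      have h3 := Finset.card_le_two (a := i) (b := k)
      rw [Finset.card_univ] at this
      omega
    simp only [Finset.mem_insert, Finset.mem_singleton, not_or] at hl
    exact ⟨l, hl⟩
  have e := ker_fam (by omega) h0 h1 hs (Pi.single k 1 - c • Pi.single i 1) (by
    simp only [Pi.sub_apply, Pi.smul_apply, sub_smul, Finset.sum_sub_distrib, Pi.single_apply,
      smul_eq_mul, mul_ite, mul_one, mul_zero, ite_smul, one_smul, zero_smul, Finset.sum_ite_eq',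
      Finset.mem_univ, if_true]
    rw [hc, sub_self]) (l := l) (by simp [hl.1, hl.2]) k
  simp [hk] at e

theorem not_regular_fam (hd : 3 ≤ d) {τ s : ℝ} (h0 : 0 < τ) (h1 : τ < 1) (hs : 0 < s) :
    ¬ IsRegular (parallelepiped (fam d τ s)) := by
  rintro ⟨p, v, ⟨⟨a, ha, hp⟩, hp0⟩, hZ⟩
  rw [← parallelepiped_eq_sum_segment] at hZ
  have hd0 : 0 < d := by omega
  have hw := widths_eq (fam d τ s) p v hZ
  have key : ∀ i, ∃ j, ‖p j‖ = ‖fam d τ s i‖ := fun i =>
    exists_norm_eq (fam d τ s) p hw i (fam_ne_zero hd0 h0.le h1 hs i)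
      (fun k hk => fam_span (by omega) h0.le h1 hs hk)
      (fun j k hj hk => simplex_span (by omega) p ha hp hp0 _ hj hk)
  obtain ⟨j, hj⟩ := key 0
  have h1' : (1 : Fin (d + 1)) ≠ 0 := by
    intro h
    have := congrArg Fin.val h
    simp at this
    omega
  obtain ⟨k, hk⟩ := key 1
  have hjk : ‖p j‖ ^ 2 = ‖p k‖ ^ 2 := by
    have e1 := norm_sq_of_simplex p hp hp0 j
    have e2 := norm_sq_of_simplex p hp hp0 k
    have : (0 : ℝ) < 2 * (d + 1) := by positivity
    exact mul_left_cancel₀ this.ne' (e1.trans e2.symm)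
  rw [hj, hk] at hjk
  have hf : ∀ i, ‖fam d τ s i‖ ^ 2 = s ^ 2 * (‖reg d i‖ ^ 2 - 2 * τ * ⟪reg d i, reg d 0⟫ +
      τ ^ 2 * ‖reg d 0‖ ^ 2) := by
    intro i
    unfold fam
    rw [norm_smul, mul_pow, norm_sub_sq_real, inner_smul_right, norm_smul, mul_pow,
      Real.norm_eq_abs, Real.norm_eq_abs, sq_abs, sq_abs]
    ring
  rw [hf, hf] at hjk
  simp only [← real_inner_self_eq_norm_sq, inner_reg hd0, if_true, if_neg h1'] at hjk
  have hs2 : 0 < s ^ 2 := by positivity
  have := mul_left_cancel₀ hs2.ne' hjk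
  have : τ = 0 := by linarith
  exact h0.ne' this

theorem isRegular_fam (hd : 0 < d) {s : ℝ} (hs : 0 < s) :
    IsRegular (parallelepiped (fam d 0 s)) := by
  refine ⟨fam d 0 s, 0, ⟨⟨s * √2, by positivity, ?_⟩, ?_⟩, ?_⟩
  · intro i j hij
    have e : fam d 0 s i - fam d 0 s j = s • (reg d i - reg d j) := by
      unfold fam; rw [← smul_sub]; simp
    rw [dist_eq_norm, e, norm_smul, Real.norm_eq_abs, abs_of_pos hs]
    congr 1
    have : ‖reg d i - reg d j‖ ^ 2 = 2 := by
      rw [norm_sub_sq_real, ← real_inner_self_eq_norm_sq, ← real_inner_self_eq_norm_sq,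
        inner_reg hd, inner_reg hd, inner_reg hd, if_pos rfl, if_pos rfl, if_neg hij]
      ring
    rw [← this, Real.sqrt_sq (norm_nonneg _)]
  · unfold fam
    simp only [zero_smul, sub_zero, ← Finset.smul_sum, sum_reg hd, smul_zero]
  · rw [← parallelepiped_eq_sum_segment]
    simp

theorem isRhombic_fam {x : Fin (d + 1) → E d} (hv : volume (parallelepiped x) = 1) :
    IsRhombicDodecahedron (parallelepiped x) := by
  refine ⟨?_, x, parallelepiped_eq_sum_segment x⟩
  rw [(convex_parallelepiped x).interior_nonempty_iff_affineSpan_eq_top]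
  by_contra hne
  have h1 : volume (parallelepiped x) ≤ volume (affineSpan ℝ (parallelepiped x) : Set (E d)) :=
    measure_mono (subset_affineSpan ℝ _)
  rw [hv, Measure.addHaar_affineSubspace _ _ hne] at h1
  exact absurd h1 (by norm_num)

/-- **Theorem.** For every odd `d ≥ 3` there is a rhombic dodecahedron of unit volume in `ℝ^d` which
is not regular but has the same circumradius as a regular one of unit volume. -/
theorem result : ∀ d : ℕ, 3 ≤ d → Odd d → ∃ Z Z₀ : Set (E d),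
    (IsRhombicDodecahedron Z ∧ volume Z = 1 ∧ ¬ IsRegular Z) ∧
    (IsRhombicDodecahedron Z₀ ∧ volume Z₀ = 1 ∧ IsRegular Z₀) ∧
    circumradius Z = circumradius Z₀ := by
  intro d hd hodd
  have hd0 : 0 < d := by omega
  set D : ℝ := |(A (reg d)).det| with hD
  have hDpos : 0 < D := abs_pos.2 (det_A_reg hd0)
  set s : ℝ := (D⁻¹) ^ ((1 : ℝ) / d) with hs
  have hspos : 0 < s := Real.rpow_pos_of_pos (inv_pos.2 hDpos) _
  have hsd : s ^ d * D = 1 := by
    rw [hs, ← Real.rpow_natCast, ← Real.rpow_mul (inv_pos.2 hDpos).le, one_div,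
      inv_mul_cancel₀ (by positivity), Real.rpow_one, inv_mul_cancel₀ hDpos.ne']
  set τ : ℝ := 1 / (4 * (d + 1)) with hτ
  have hτ0 : 0 < τ := by positivity
  have hτ1 : τ < 1 := by
    rw [hτ, div_lt_one (by positivity)]
    have : (0 : ℝ) < d := by exact_mod_cast hd0
    linarith
  have hv : ∀ σ : ℝ, 0 ≤ σ → σ < 1 → volume (parallelepiped (fam d σ s)) = 1 := by
    intro σ h0 h1
    rw [volume_fam hd0 h0 h1 hspos, ← hD, hsd, ENNReal.ofReal_one]
  refine ⟨parallelepiped (fam d τ s), parallelepiped (fam d 0 s),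
    ⟨isRhombic_fam (hv τ hτ0.le hτ1), hv τ hτ0.le hτ1, not_regular_fam hd hτ0 hτ1 hspos⟩,
    ⟨isRhombic_fam (hv 0 le_rfl one_pos), hv 0 le_rfl one_pos, isRegular_fam hd0 hspos⟩, ?_⟩
  exact (circumradius_fam hd hodd hτ0.le le_rfl hspos).trans
    (circumradius_fam hd hodd le_rfl (by positivity) hspos).symm

end Pool.Agent.Results.MP_de3f1f_gt.OddDimensions
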